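import Mathlib

set_option autoImplicit false

/-! For every prime `p` a unital Polish locally compact, noncompact ring of characteristic `p` in
which every commutative set has compact closure. -/

namespace Pool.Agent.Results.MP_ec5d01_al.PolishLocalRing

open Set Topology

variable (p : ℕ) [hp : Fact p.Prime]

/-- The countable space `V` of finitely supported sequences over `𝔽_p`, with the discrete
topology. -/
def V : Type := ℕ →₀ ZMod p

noncomputable instance : AddCommGroup (V p) := inferInstanceAs (AddCommGroup (ℕ →₀ ZMod p))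
noncomputable instance : Module (ZMod p) (V p) := inferInstanceAs (Module (ZMod p) (ℕ →₀ ZMod p))
instance : Countable (V p) := inferInstanceAs (Countable (ℕ →₀ ZMod p))
instance : Infinite (V p) :=
  haveI : Nontrivial (ZMod p) := inferInstance
  inferInstanceAs (Infinite (ℕ →₀ ZMod p))
instance : TopologicalSpace (V p) := ⊥
instance : DiscreteTopology (V p) := ⟨rfl⟩

variable {p} in
/-- the coordinates of a vector -/
def V.co (v : V p) (i : ℕ) : ZMod p := (show ℕ →₀ ZMod p from v) i

@[simp] lemma co_add (v w : V p) (i : ℕ) : (v + w).co i = v.co i + w.co i := Finsupp.add_apply _ _ _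
@[simp] lemma co_zero (i : ℕ) : (0 : V p).co i = 0 := rfl
@[simp] lemma co_smul (a : ZMod p) (v : V p) (i : ℕ) : (a • v).co i = a * v.co i :=
  Finsupp.smul_apply _ _ _
lemma co_ext {v w : V p} (h : ∀ i, v.co i = w.co i) : v = w := Finsupp.ext h

/-- The compact space `K` of all `ℕ × ℕ` matrices over `𝔽_p`. -/
abbrev K : Type := ℕ × ℕ → ZMod p

/-- The additive topological group `𝔽_p × V × K`. -/
def R : Type := ZMod p × (V p × K p)

noncomputable instance : AddCommGroup (R p) := inferInstanceAs (AddCommGroup (ZMod p × (V p × K p)))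
instance : TopologicalSpace (R p) := inferInstanceAs (TopologicalSpace (ZMod p × (V p × K p)))
instance : IsTopologicalAddGroup (R p) :=
  inferInstanceAs (IsTopologicalAddGroup (ZMod p × (V p × K p)))
instance : T2Space (R p) := inferInstanceAs (T2Space (ZMod p × (V p × K p)))
instance : PolishSpace (R p) := inferInstanceAs (PolishSpace (ZMod p × (V p × K p)))
instance : LocallyCompactSpace (R p) :=
  inferInstanceAs (LocallyCompactSpace (ZMod p × (V p × K p)))

/-- the matrix `v ⊗ w` -/
def tens (v w : V p) : K p := fun q => v.co q.1 * w.co q.2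

/-- the product `(a, v, k) (b, w, l) = (a b, a w + b v, a l + b k + v ⊗ w)` -/
noncomputable def rmul (x y : ZMod p × (V p × K p)) : ZMod p × (V p × K p) :=
  (x.1 * y.1, x.1 • y.2.1 + y.1 • x.2.1, x.1 • y.2.2 + y.1 • x.2.2 + tens p x.2.1 y.2.1)

noncomputable instance : Mul (R p) := ⟨rmul p⟩
noncomputable instance : One (R p) := ⟨((1 : ZMod p), (0 : V p), (0 : K p))⟩

lemma mul_def (x y : R p) : x * y = rmul p x y := rfl

lemma r_ext {x y : R p} (h1 : x.1 = y.1) (h2 : ∀ i, x.2.1.co i = y.2.1.co i)
    (h3 : ∀ q, x.2.2 q = y.2.2 q) : x = y :=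
  Prod.ext h1 (Prod.ext (co_ext p h2) (funext h3))

@[simp] lemma add1 (x y : R p) : (x + y).1 = x.1 + y.1 := rfl
@[simp] lemma add2 (x y : R p) : (x + y).2.1 = x.2.1 + y.2.1 := rfl
@[simp] lemma add3 (x y : R p) (q : ℕ × ℕ) : (x + y).2.2 q = x.2.2 q + y.2.2 q := rfl
@[simp] lemma zero1 : (0 : R p).1 = 0 := rfl
@[simp] lemma zero2 : (0 : R p).2.1 = 0 := rfl
@[simp] lemma zero3 (q : ℕ × ℕ) : (0 : R p).2.2 q = 0 := rfl
@[simp] lemma one1 : (1 : R p).1 = 1 := rfl
@[simp] lemma one2 : (1 : R p).2.1 = 0 := rfl
@[simp] lemma one3 (q : ℕ × ℕ) : (1 : R p).2.2 q = 0 := rfl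
@[simp] lemma mul1 (x y : R p) : (x * y).1 = x.1 * y.1 := rfl
@[simp] lemma mul2 (x y : R p) : (x * y).2.1 = x.1 • y.2.1 + y.1 • x.2.1 := rfl
@[simp] lemma mul3 (x y : R p) (q : ℕ × ℕ) : (x * y).2.2 q =
    x.1 * y.2.2 q + y.1 * x.2.2 q + x.2.1.co q.1 * y.2.1.co q.2 := rfl

noncomputable instance : Ring (R p) :=
  { (inferInstance : AddCommGroup (R p)) with
    left_distrib := fun x y z => r_ext p (by simp; ring) (fun i => by simp; ring)
      (fun q => by simp; ring)
    right_distrib := fun x y z => r_ext p (by simp; ring) (fun i => by simp; ring)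
      (fun q => by simp; ring)
    zero_mul := fun x => r_ext p (by simp) (fun i => by simp) (fun q => by simp)
    mul_zero := fun x => r_ext p (by simp) (fun i => by simp) (fun q => by simp)
    mul_assoc := fun x y z => r_ext p (by simp; ring) (fun i => by simp; ring)
      (fun q => by simp; ring)
    one_mul := fun x => r_ext p (by simp) (fun i => by simp) (fun q => by simp)
    mul_one := fun x => r_ext p (by simp) (fun i => by simp) (fun q => by simp) }

instance : IsTopologicalRing (R p) where
  continuous_mul := by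
    have h1 : Continuous fun x : V p × V p => tens p x.1 x.2 := continuous_of_discreteTopology
    have h2 : Continuous fun x : ZMod p × V p => x.1 • x.2 := continuous_of_discreteTopology
    have h3 : Continuous fun x : ZMod p × K p => x.1 • x.2 := by
      refine continuous_pi fun q => ?_
      show Continuous fun x : ZMod p × K p => x.1 * x.2 q
      exact continuous_fst.mul ((continuous_apply q).comp continuous_snd)
    have key : Continuous fun x : (ZMod p × (V p × K p)) × (ZMod p × (V p × K p)) =>
        rmul p x.1 x.2 := by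
      unfold rmul
      refine Continuous.prodMk ?_ (Continuous.prodMk ?_ ?_)
      · exact (continuous_fst.comp continuous_fst).mul (continuous_fst.comp continuous_snd)
      · exact (h2.comp (f := fun x : (ZMod p × (V p × K p)) × (ZMod p × (V p × K p)) =>
            (x.1.1, x.2.2.1)) (by fun_prop)).add
          (h2.comp (f := fun x : (ZMod p × (V p × K p)) × (ZMod p × (V p × K p)) =>
            (x.2.1, x.1.2.1)) (by fun_prop))
      · exact ((h3.comp (f := fun x : (ZMod p × (V p × K p)) × (ZMod p × (V p × K p)) =>
            (x.1.1, x.2.2.2)) (by fun_prop)).add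
          (h3.comp (f := fun x : (ZMod p × (V p × K p)) × (ZMod p × (V p × K p)) =>
            (x.2.1, x.1.2.2)) (by fun_prop))).add
          (h1.comp (f := fun x : (ZMod p × (V p × K p)) × (ZMod p × (V p × K p)) =>
            (x.1.2.1, x.2.2.1)) (by fun_prop))
    exact key

/-- the projection onto the scalars -/
noncomputable def pr : R p →+* ZMod p where
  toFun x := x.1
  map_one' := rfl
  map_mul' _ _ := rfl
  map_zero' := rfl
  map_add' _ _ := rfl

/-- the inclusion of the scalars -/
noncomputable def inc : ZMod p →+* R p where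
  toFun a := (a, ((0 : V p), (0 : K p)))
  map_one' := rfl
  map_mul' x y := r_ext p (by simp) (fun i => by simp) (fun q => by simp)
  map_zero' := rfl
  map_add' x y := r_ext p (by simp) (fun i => by simp) (fun q => by simp)

/-- commuting elements have dependent vector parts -/
lemma dependent {x y : R p} (h : x * y = y * x) (hx : x.2.1 ≠ 0) : ∃ c : ZMod p, y.2.1 = c • x.2.1 := by
  obtain ⟨i, hi⟩ : ∃ i, x.2.1.co i ≠ 0 := by
    by_contra hcon
    push Not at hcon
    exact hx (co_ext p fun i => by rw [hcon i, co_zero])
  have h1 : ∀ j, x.2.1.co i * y.2.1.co j = y.2.1.co i * x.2.1.co j := fun j => by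
    have h2 := congrArg (fun z : R p => z.2.2 (i, j)) h
    simp only [mul3] at h2
    linear_combination h2
  refine ⟨y.2.1.co i / x.2.1.co i, co_ext p fun j => ?_⟩
  rw [co_smul, div_mul_eq_mul_div, eq_div_iff hi, mul_comm]
  exact h1 j

/-- sets with finitely many vector parts have compact closure -/
lemma compact_closure {L : Set (V p)} (hL : L.Finite) {S : Set (R p)} (h : ∀ x ∈ S, x.2.1 ∈ L) :
    IsCompact (closure S) := by
  have h1 : IsCompact ((univ : Set (ZMod p)) ×ˢ (L ×ˢ (univ : Set (K p)))) :=
    isCompact_univ.prod (hL.isCompact.prod isCompact_univ)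
  have h2 : IsCompact (X := R p) {x : R p | x.2.1 ∈ L} := by
    have e : ((univ : Set (ZMod p)) ×ˢ (L ×ˢ (univ : Set (K p)))) =
        {x : ZMod p × (V p × K p) | x.2.1 ∈ L} := by ext x; simp
    rw [e] at h1
    exact h1
  exact h2.closure_of_subset h

theorem comm_compact (S : Set (R p)) (h : ∀ a ∈ S, ∀ b ∈ S, a * b = b * a) :
    IsCompact (closure S) := by
  by_cases h0 : ∃ a ∈ S, a.2.1 ≠ 0
  · obtain ⟨a, ha, ha0⟩ := h0
    refine compact_closure p (L := range fun c : ZMod p => c • a.2.1) (finite_range _) fun b hb => ?_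
    obtain ⟨c, hc⟩ := dependent p (h a ha b hb) ha0
    exact ⟨c, hc.symm⟩
  · push Not at h0
    exact compact_closure p (L := {0}) (finite_singleton _) fun b hb => h0 b hb

theorem not_compact : ¬ CompactSpace (R p) := by
  intro h
  have h1 : Continuous fun x : ZMod p × (V p × K p) => x.2.1 := by fun_prop
  have h2 : IsCompact (range fun x : ZMod p × (V p × K p) => x.2.1) :=
    @isCompact_range _ _ _ _ h _ h1
  have h3 : (range fun x : ZMod p × (V p × K p) => x.2.1) = univ :=
    eq_univ_of_forall fun v => ⟨(0, (v, 0)), rfl⟩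
  rw [h3] at h2
  exact infinite_univ h2.finite_of_discrete

/-- **Main result.**  For every prime `p` there is a unital ring `R` of characteristic `p` with a
complete Polish locally compact ring topology which is not compact, in which every commutative set
(in particular every commutative subring) has compact closure, so that every closed commutative
subring is compact.  Moreover `R` has an open two-sided ideal `J` with `J ^ 3 = 0` such that every
element of `R` is an integer modulo `J`. -/
theorem result (p : ℕ) (hp : p.Prime) :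
    ∃ (R : Type) (_ : Ring R) (_ : UniformSpace R),
      IsUniformAddGroup R ∧ IsTopologicalRing R ∧ T2Space R ∧ CompleteSpace R ∧ PolishSpace R ∧
      LocallyCompactSpace R ∧ CharP R p ∧ ¬ CompactSpace R ∧
      (∀ S : NonUnitalSubring R, IsClosed (S : Set R) →
        (∀ a ∈ S, ∀ b ∈ S, a * b = b * a) → IsCompact (S : Set R)) ∧
      (∀ S : Set R, (∀ a ∈ S, ∀ b ∈ S, a * b = b * a) → IsCompact (closure S)) ∧
      ∃ J : Ideal R, J.IsTwoSided ∧ IsOpen (J : Set R) ∧
        (∀ x ∈ J, ∀ y ∈ J, ∀ z ∈ J, x * y * z = 0) ∧ ∀ x : R, ∃ n : ℕ, x - n ∈ J := by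
  have : Fact p.Prime := ⟨hp⟩
  letI : UniformSpace (R p) := IsTopologicalAddGroup.rightUniformSpace (R p)
  haveI hU : IsUniformAddGroup (R p) := isUniformAddGroup_of_addCommGroup
  haveI hC : CompleteSpace (R p) :=
    IsRightUniformAddGroup.completeSpace_of_weaklyLocallyCompactSpace
  refine ⟨R p, inferInstance, inferInstance, hU, inferInstance, inferInstance, hC, inferInstance,
    inferInstance, ?_, not_compact p, fun S hS h => ?_, comm_compact p, RingHom.ker (pr p),
    inferInstance, ?_, ?_, ?_⟩
  · refine charP_of_injective_ringHom (f := inc p) (fun x y h => ?_) p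
    exact congrArg Prod.fst h
  · have := comm_compact p (S : Set (R p)) h
    rwa [hS.closure_eq] at this
  · have h1 : Continuous fun x : ZMod p × (V p × K p) => x.1 := continuous_fst
    exact (isOpen_discrete ({0} : Set (ZMod p))).preimage h1
  · intro x hx y hy z hz
    have hx' : x.1 = 0 := hx
    have hy' : y.1 = 0 := hy
    have hz' : z.1 = 0 := hz
    refine r_ext p ?_ (fun i => ?_) (fun q => ?_) <;> simp [hx', hy', hz']
  · intro x
    refine ⟨x.1.val, ?_⟩
    rw [RingHom.mem_ker, map_sub, map_natCast, ZMod.natCast_val, ZMod.cast_id]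
    exact sub_self _

end Pool.Agent.Results.MP_ec5d01_al.PolishLocalRing
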